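import Pool.Agent.helper4.EC.Spec

set_option autoImplicit false

namespace Pool.Agent.helper4.EC

open Finset

universe u

theorem TB_ind {V : Type u} [DecidableEq V] {G : SimpleGraph V} {X : Finset V} {x y : V} {a b : V}
    (h : Sl G X x y) (ha : a ∈ insert y (X.erase x)) (hb : b ∈ insert y (X.erase x)) :
    ¬ G.Adj a b := h.2.2.2.1.1 a ha b hb

theorem TB_aux (h2 : C4_stmt.{u}) (h3 : LN_stmt.{u}) (h4 : TR_stmt.{u}) (h5 : CF_stmt.{u})
    (V : Type u) [DecidableEq V] (G : SimpleGraph V) (hc : Chordal G) (hci : Chordal (iGraph G))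
    (hDF : DF G) (X : Finset V) (x y x' y' : V) (hX : IsISet G X) (hs : Sl G X x y)
    (hs' : Sl G X x' y') (hne : x ≠ x') (hyy : G.Adj y y')
    (T : {S : Finset V // IsISet G S})
    (hT1 : (iGraph G).Adj T ⟨X, hX⟩)
    (hT2 : (iGraph G).Adj T ⟨insert y (X.erase x), hs.2.2.2⟩) : False := by
  obtain ⟨z, hzy, hsz, _⟩ := h4 V G ⟨X, hX⟩ ⟨insert y (X.erase x), hs.2.2.2⟩ T x y hs rfl hT1 hT2
  have hyz : G.Adj y z := h3 V G X x y z hs hsz hzy.symm
  have hxy' : ¬ G.Adj x y' :=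
    TB_ind hs' (mem_insert_of_mem (mem_erase.2 ⟨hne, hs.1⟩)) (mem_insert_self _ _)
  have hx'y : ¬ G.Adj x' y :=
    TB_ind hs (mem_insert_of_mem (mem_erase.2 ⟨hne.symm, hs'.1⟩)) (mem_insert_self _ _)
  have nxy' : x ≠ y' := fun h => hs'.2.1 (by rw [← h]; exact hs.1)
  have nyx' : y ≠ x' := fun h => hs.2.1 (by rw [h]; exact hs'.1)
  have hzy' : ¬ G.Adj z y' := fun h =>
    hxy' (hDF y z x y' hyz hs.2.2.1.symm hsz.2.2.1.symm hyy h nxy')
  obtain ⟨v, hxv, hx'v, _, hy'v⟩ := h5 V G hci X x z x' y' hX hsz hs' hne hzy'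
  have nvy' : v ≠ y' := fun h => hxy' (by rw [← h]; exact hxv)
  have nvy : v ≠ y := fun h => hx'y (by rw [← h]; exact hx'v)
  by_cases hvy : G.Adj v y
  · rcases (h2 V G hc).1 v y y' x' hvy hyy hs'.2.2.1.symm hx'v nvy' nyx' with h | h
    · exact hy'v h.symm
    · exact hx'y h.symm
  · exact (h2 V G hc).2 v x y y' x' hxv.symm hs.2.2.1 hyy hs'.2.2.1.symm hx'v nvy hvy nxy' hxy'
      nyx' (fun h => hx'y h.symm)

theorem TB (h1 : SA_stmt.{u}) (h2 : C4_stmt.{u}) (h3 : LN_stmt.{u}) (h4 : TR_stmt.{u}) (h5 : CF_stmt.{u}) : TB_stmt.{u} := by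
  intro V _ G hc hci hDF hSB X x y x' y' hX hs hs' hne
  by_cases hyy : G.Adj y y'
  · exfalso
    have a1 : (iGraph G).Adj ⟨X, hX⟩ ⟨insert y (X.erase x), hs.2.2.2⟩ :=
      (h1 V G _ _).2 ⟨x, y, hs, rfl⟩
    have a2 : (iGraph G).Adj ⟨X, hX⟩ ⟨insert y' (X.erase x'), hs'.2.2.2⟩ :=
      (h1 V G _ _).2 ⟨x', y', hs', rfl⟩
    have a3 : (⟨insert y (X.erase x), hs.2.2.2⟩ : {S : Finset V // IsISet G S}) ≠
        ⟨insert y' (X.erase x'), hs'.2.2.2⟩ := by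
      intro h
      have h' : insert y (X.erase x) = insert y' (X.erase x') := congrArg Subtype.val h
      have hm : x' ∈ insert y (X.erase x) := mem_insert_of_mem (mem_erase.2 ⟨hne.symm, hs'.1⟩)
      rw [h', mem_insert] at hm
      rcases hm with hm | hm
      · exact hs'.2.1 (by rw [← hm]; exact hs'.1)
      · exact (mem_erase.1 hm).1 rfl
    rcases hSB _ _ _ a1 a2 a3 with ⟨T, hT1, hT2⟩ | ⟨T, hT1, hT2⟩
    · exact TB_aux h2 h3 h4 h5 V G hc hci hDF X x y x' y' hX hs hs' hne hyy T hT1 hT2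
    · exact TB_aux h2 h3 h4 h5 V G hc hci hDF X x' y' x y hX hs' hs hne.symm hyy.symm T hT1 hT2
  · exact h5 V G hci X x y x' y' hX hs hs' hne hyy

end Pool.Agent.helper4.EC
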